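import Pool.Agent.H8.AV3.Stmts6

/-!
# AV3C, module FBR: two forms of the same class with the same local lattices
-/

set_option autoImplicit false

namespace Pool.Agent.H28.AV3C

open Polynomial Matrix Pool.AVR Pool.AV3

section Maps

variable {R S : Type} [CommRing R] [CommRing S] (φ : R →+* S)

theorem map_dsc_Jc (τ : R) (c : Fin 10 → R) :
    φ (dsc (Jc τ c)) = dsc (Jc (φ τ) fun i => φ (c i)) := by
  have h1 : dsc (Jc (φ τ) fun i => φ (c i)) =
      dsc (φ (Jc τ c).1, φ (Jc τ c).2.1, φ (Jc τ c).2.2) := by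
    congr 1
    simp only [Jc, jb4, jb6, map_add, map_sub, map_mul, map_pow, map_neg, map_ofNat]
  rw [h1]
  simp only [dsc, disc, map_add, map_sub, map_mul, map_pow, map_ofNat]

end Maps

section Diag

variable {F : Type} [Field F]

theorem Dg_det_ne (d : Fin 3 → ℤ) : (Dg d : Matrix (Fin 3) (Fin 3) (RatFunc F)).det ≠ 0 := by
  unfold Dg
  rw [Matrix.det_diagonal]
  exact Finset.prod_ne_zero_iff.2 fun i _ => zpow_ne_zero _ RatFunc.X_ne_zero

theorem Dg_unit (d : Fin 3 → ℤ) : IsUnit (Dg d : Matrix (Fin 3) (Fin 3) (RatFunc F)).det :=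
  isUnit_iff_ne_zero.2 (Dg_det_ne d)

end Diag

/-- FBR. -/
theorem fbr_thm (hUNQ3 : UNQ3Stmt) (hBAS : Pool.AV3.BASStmt) (hARC : ARCStmt) (hDVP : DVPStmt)
    (hPOL : AVS.POLStmt) : FBRStmt := by
  intro F _ h2 n α β α' β' S c₀ c c' g g' hS hd hc hc' hE hE' hP hI
  have h2K : (2 : RatFunc F) ≠ 0 := by
    have h := (map_ne_zero (algebraMap F (RatFunc F))).2 h2
    rwa [map_ofNat] at h
  have hu : IsUnit g.det := hE.1
  have hu' : IsUnit g'.det := hE'.1
  have hEh : Eqv (g⁻¹ * g') (mp c) (mp c') := hE.symm.trans hE'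
  have hh : g * (g⁻¹ * g') = g' := by
    rw [← Matrix.mul_assoc, Matrix.mul_nonsing_inv _ hu, Matrix.one_mul]
  have hhf : algebraMap F[X] (RatFunc F) (hf F) = (2 : RatFunc F)⁻¹ := by
    have h1 : (2 : RatFunc F) * algebraMap F[X] (RatFunc F) (hf F) = 1 := by
      have h3 : (2 : F[X]) * hf F = 1 := by
        unfold hf
        have h4 : (2 : F[X]) = C 2 := (map_ofNat C 2).symm
        rw [h4, ← C_mul, mul_inv_cancel₀ h2, C_1]
      have h5 := congrArg (algebraMap F[X] (RatFunc F)) h3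
      rwa [map_mul, map_ofNat, map_one] at h5
    exact (eq_inv_of_mul_eq_one_right h1)
  have hfin : ∀ P : F[X], P.Monic → Irreducible P → ∃ r : RatFunc F, r ≠ 0 ∧
      AVS.GI (AVS.IP P) (r • (g⁻¹ * g')) := by
    intro P hPm hPi
    by_cases hPS : P ∈ S
    · obtain ⟨κ, r, hκ, hr, h⟩ := hP P hPS
      refine ⟨r⁻¹, inv_ne_zero hr, ?_⟩
      have h3 : r⁻¹ • (g⁻¹ * g') = κ := by
        rw [h, Matrix.mul_smul, ← Matrix.mul_assoc, Matrix.nonsing_inv_mul _ hu, Matrix.one_mul,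
          smul_smul, inv_mul_cancel₀ hr, one_smul]
      rw [h3]
      exact hκ
    · have hin : ∀ p : F[X], algebraMap F[X] (RatFunc F) p ∈ AVS.IP P := fun p =>
        ((hPOL F).2.2.1 P p hPi).1
      apply hUNQ3 (RatFunc F) (AVS.IP P) (algebraMap F[X] (RatFunc F) P) (hDVP.1 F P hPi)
        (hARC.1 F P hPi) h2K _ (mp c) (mp c') (g⁻¹ * g') (fun i => hin _) (fun i => hin _) hEh
      · rw [← hhf]
        have h3 : dsc (Jc (algebraMap F[X] (RatFunc F) (hf F)) (mp c)) =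
            algebraMap F[X] (RatFunc F) (dsc (Jc (hf F) c)) :=
          (map_dsc_Jc (algebraMap F[X] (RatFunc F)) (hf F) c).symm
        rw [h3]
        intro h4
        exact hd P hPm hPi hPS ((((hPOL F).2.2.1 P _ hPi).2 2).1 h4)
      · rw [← hhf]
        exact hin _
  have hinf : ∃ r : RatFunc F, r ≠ 0 ∧
      AVS.GI (AVS.Iinf F) (r • (Dg (dv α β) * (g⁻¹ * g') * (Dg (dv α' β'))⁻¹)) := by
    obtain ⟨κ, r, hκ, hr, h⟩ := hI
    refine ⟨r⁻¹, inv_ne_zero hr, ?_⟩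
    have h3 : r⁻¹ • (Dg (dv α β) * (g⁻¹ * g') * (Dg (dv α' β'))⁻¹) = κ := by
      have h4 : Dg (dv α β) * (g⁻¹ * g') * (Dg (dv α' β'))⁻¹ =
          Dg (dv α β) * (g⁻¹ * (g' * (Dg (dv α' β'))⁻¹)) := by
        simp only [Matrix.mul_assoc]
      have h5 : g⁻¹ * (g * (Dg (dv α β))⁻¹ * κ) = (Dg (dv α β))⁻¹ * κ := by
        rw [Matrix.mul_assoc, ← Matrix.mul_assoc g⁻¹, Matrix.nonsing_inv_mul _ hu,
          Matrix.one_mul]
      rw [h4, h, Matrix.mul_smul, Matrix.mul_smul, h5, ← Matrix.mul_assoc,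
        Matrix.mul_nonsing_inv _ (Dg_unit _), Matrix.one_mul, smul_smul, inv_mul_cancel₀ hr,
        one_smul]
    rw [h3]
    exact hκ
  have hdet : (g⁻¹ * g').det ≠ 0 := hEh.1.ne_zero
  obtain ⟨h3, h4, r, hr, γ, hγ, h5⟩ := hBAS F (g⁻¹ * g') α β α' β' hdet hfin hinf
  refine ⟨h3, h4, r, hr, γ, hγ, ?_⟩
  rw [← Matrix.mul_smul, ← h5, hh]

end Pool.Agent.H28.AV3C
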