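import Pool.Agent.H28.AV3C.WL1b
import Pool.Agent.H15.AV3B.WCT

/-!
# AV3C, module WL1: the main counting for one class
-/

set_option autoImplicit false

namespace Pool.Agent.H28.AV3C

open Polynomial Matrix Pool.AVR Pool.AV3

section Comb

theorem final_count {Q : Type} [Finite Q] (n : ℕ) (T : ℕ → ℕ → Type)
    (hT : ∀ a b, a ≤ n → b ≤ n → Finite (T a b)) (cl : ∀ a b, T a b → Q) (G : ℕ → ℕ → ℝ)
    (hG : ∀ a b, 0 < G a b) (k B : ℝ) (hB : 0 ≤ B)
    (h1 : ∀ a b, a ≤ n → b ≤ n → ∀ q, k * Nat.card {y : T a b // cl a b y = q} ≤ G a b * B)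
    (h2 : ∀ a b a' b' (y : T a b) (y' : T a' b'), cl a b y = cl a' b' y' → a = a' ∧ b = b') :
    k * ∑ a ∈ Finset.range (n + 1), ∑ b ∈ Finset.range (n + 1), (Nat.card (T a b) : ℝ) / G a b ≤
      Nat.card Q * B := by
  classical
  have hQ := Fintype.ofFinite Q
  have e1 : ∀ a b, a ≤ n → b ≤ n → (Nat.card (T a b) : ℝ) =
      ∑ q : Q, (Nat.card {y : T a b // cl a b y = q} : ℝ) := by
    intro a b ha hb
    have := hT a b ha hb
    rw [← Nat.card_congr (Equiv.sigmaFiberEquiv (cl a b)), Nat.card_sigma]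
    push_cast
    rfl
  have e2 : k * ∑ a ∈ Finset.range (n + 1), ∑ b ∈ Finset.range (n + 1),
      (Nat.card (T a b) : ℝ) / G a b = ∑ q : Q, ∑ p ∈ Finset.range (n + 1) ×ˢ
        Finset.range (n + 1), k * Nat.card {y : T p.1 p.2 // cl p.1 p.2 y = q} / G p.1 p.2 := by
    symm
    rw [Finset.sum_comm, Finset.sum_product, Finset.mul_sum]
    refine Finset.sum_congr rfl (fun a ha => ?_)
    rw [Finset.mul_sum]
    refine Finset.sum_congr rfl (fun b hb => ?_)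
    rw [Finset.mem_range] at ha hb
    rw [e1 a b (by omega) (by omega), ← Finset.sum_div, ← Finset.mul_sum, mul_div_assoc]
  rw [e2]
  have e3 : ∀ q : Q, ∑ p ∈ Finset.range (n + 1) ×ˢ Finset.range (n + 1),
      k * Nat.card {y : T p.1 p.2 // cl p.1 p.2 y = q} / G p.1 p.2 ≤ B := by
    intro q
    apply sum_le_one _ _ _ hB
    · intro p hp
      rw [Finset.mem_product, Finset.mem_range, Finset.mem_range] at hp
      rw [div_le_iff₀ (hG _ _), mul_comm B]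
      exact h1 _ _ (by omega) (by omega) q
    · intro p _ p' _ h3 h4
      have h5 : ∀ p : ℕ × ℕ, k * Nat.card {y : T p.1 p.2 // cl p.1 p.2 y = q} / G p.1 p.2 ≠ 0 →
          ∃ y : T p.1 p.2, cl p.1 p.2 y = q := by
        intro p h6
        have h7 : Nat.card {y : T p.1 p.2 // cl p.1 p.2 y = q} ≠ 0 := by
          intro h8
          apply h6
          rw [h8]
          simp
        obtain ⟨⟨y, hy⟩⟩ := (Nat.card_ne_zero.1 h7).1
        exact ⟨y, hy⟩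
      obtain ⟨y, hy⟩ := h5 p h3
      obtain ⟨y', hy'⟩ := h5 p' h4
      obtain ⟨h6, h7⟩ := h2 _ _ _ _ y y' (hy.trans hy'.symm)
      exact Prod.ext h6 h7
  refine (Finset.sum_le_sum (fun q _ => e3 q)).trans ?_
  rw [Finset.sum_const, Finset.card_univ, nsmul_eq_mul, Nat.card_eq_fintype_card]

end Comb

section Pairs

variable {F : Type} [Field F] {n : ℕ} {S : Finset F[X]} {f : F[X] × F[X] × F[X]}
  {c₀ : Fin 10 → RatFunc F}

open Classical in
/-- The chosen equivalence. -/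
noncomputable def gc (c₀ : Fin 10 → RatFunc F) (c : Fin 10 → F[X]) :
    Matrix (Fin 3) (Fin 3) (RatFunc F) :=
  if h : ∃ g, Eqv g c₀ (mp c) then h.choose else 1

theorem gc_spec {c : Fin 10 → F[X]} (h : ∃ g, Eqv g c₀ (mp c)) : Eqv (gc c₀ c) c₀ (mp c) := by
  unfold gc
  rw [dif_pos h]
  exact h.choose_spec

theorem kp_P (hRDG : RDGStmt) (hVDI : VDIStmt) {α β : ℕ} (hS : ∀ P ∈ S, P.Monic ∧ Irreducible P)
    {y : Yt S} (hy : y ∈ TT n α β S f c₀) (P : {P // P ∈ S}) :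
    KP3 (AVS.IP P.1) (algebraMap F[X] (RatFunc F) P.1) c₀ (gc c₀ y.1)
      (pv (lfP P.1 (y.2.1 P))) := by
  obtain ⟨⟨hVJ, hg⟩, hP, -⟩ := hy
  have hE := gc_spec hg
  have hd : (gc c₀ y.1).det ≠ 0 := hE.1.ne_zero
  have e1 : (fun i => tsub c₀ (gc c₀ y.1) i / (gc c₀ y.1).det) = mp y.1 := by
    funext i
    rw [hE.2, Pi.smul_apply, smul_eq_mul, mul_div_cancel_left₀ _ hd]
  refine ⟨hd, ?_, ?_⟩
  · intro i
    have h1 := congrFun e1 i
    rw [h1]
    exact (hVDI F n (dv α β) y.1).2.2 P.1 (hS P.1 P.2).2 i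
  · rw [e1]
    apply hRDG.1 F P.1 (hS P.1 P.2).1 (hS P.1 P.2).2
    simp only [lfP_spec]
    exact hP P

theorem kp_I (hRDG : RDGStmt) (hVDI : VDIStmt) {α β : ℕ}
    {y : Yt S} (hy : y ∈ TT n α β S f c₀) :
    KP3 (AVS.Iinf F) (RatFunc.X)⁻¹ (((RatFunc.X : RatFunc F) ^ n)⁻¹ • c₀)
      (gc c₀ y.1 * (Dg (dv α β))⁻¹) (pv fun j => C (lfX y.2.2 j)) := by
  obtain ⟨⟨hVJ, hg⟩, -, hI⟩ := hy
  have hE := gc_spec hg
  have hd : (gc c₀ y.1).det ≠ 0 := hE.1.ne_zero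
  have hDu : IsUnit (Dg (dv α β) : Matrix (Fin 3) (Fin 3) (RatFunc F)).det := by
    unfold Dg
    rw [Matrix.det_diagonal]
    exact isUnit_iff_ne_zero.2
      (Finset.prod_ne_zero_iff.2 fun i _ => zpow_ne_zero _ RatFunc.X_ne_zero)
  have hDi : ((Dg (dv α β) : Matrix (Fin 3) (Fin 3) (RatFunc F))⁻¹).det ≠ 0 :=
    (Matrix.isUnit_nonsing_inv_det _ hDu).ne_zero
  have e1 : (fun i => tsub (((RatFunc.X : RatFunc F) ^ n)⁻¹ • c₀)
      (gc c₀ y.1 * (Dg (dv α β))⁻¹) i / (gc c₀ y.1 * (Dg (dv α β))⁻¹).det) =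
      cI n (dv α β) y.1 := by
    funext i
    rw [← (hVDI F n (dv α β) y.1).2.1 i, ← Pool.AV3.tsub_mul, tsub_smul_form, hE.2, Matrix.det_mul,
      smul_comm, tsub_smul_form, Pi.smul_apply, smul_eq_mul, mul_div_mul_left _ _ hd]
  refine ⟨?_, ?_, ?_⟩
  · rw [Matrix.det_mul]
    exact mul_ne_zero hd hDi
  · intro i
    have h1 := congrFun e1 i
    rw [h1]
    exact (hVDI F n (dv α β) y.1).1.1 hVJ.1 i
  · rw [e1]
    apply hRDG.2 F n (dv α β) y.1 hVJ.1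
    simp only [lfX_spec]
    exact hI

/-- Tuples with equivalent pairs are related. -/
theorem rel_exists (hFBR : FBRStmt) (hGAF : GAFStmt) (hRDP : RDPStmt)
    (hRDI : RDIStmt) (hDVP : DVPStmt) (h2 : (2 : F) ≠ 0) {α β α' β' N : ℕ}
    (hf : f ∈ GdF n N S) (hS : ∀ P ∈ S, P.Monic ∧ Irreducible P) {y₀ y : Yt S}
    (hy₀ : y₀ ∈ TT n α β S f c₀) (hy : y ∈ TT n α' β' S f c₀)
    (hEP : ∀ P : {P // P ∈ S}, Eq3 (AVS.IP P.1) (algebraMap F[X] (RatFunc F) P.1)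
      (gc c₀ y₀.1) (pv (lfP P.1 (y₀.2.1 P))) (gc c₀ y.1) (pv (lfP P.1 (y.2.1 P))))
    (hEI : Eq3 (AVS.Iinf F) (RatFunc.X)⁻¹ (gc c₀ y₀.1 * (Dg (dv α β))⁻¹)
      (pv fun j => C (lfX y₀.2.2 j)) (gc c₀ y.1 * (Dg (dv α' β'))⁻¹)
      (pv fun j => C (lfX y.2.2 j))) :
    α = α' ∧ β = β' ∧ ∃ (γ : Matrix (Fin 3) (Fin 3) F[X])
      (l : ∀ P : {P // P ∈ S}, AdjoinRoot P.1) (li : F), (∀ P, l P ≠ 0) ∧ li ≠ 0 ∧
        Rel α β S y₀ y γ l li := by
  have hE₀ := gc_spec hy₀.1.2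
  have hE := gc_spec hy.1.2
  have hd₀ : (gc c₀ y₀.1).det ≠ 0 := hE₀.1.ne_zero
  have hDu : IsUnit (Dg (dv α β) : Matrix (Fin 3) (Fin 3) (RatFunc F)).det := by
    unfold Dg
    rw [Matrix.det_diagonal]
    exact isUnit_iff_ne_zero.2
      (Finset.prod_ne_zero_iff.2 fun i _ => zpow_ne_zero _ RatFunc.X_ne_zero)
  have hDi : ((Dg (dv α β) : Matrix (Fin 3) (Fin 3) (RatFunc F))⁻¹).det ≠ 0 :=
    (Matrix.isUnit_nonsing_inv_det _ hDu).ne_zero
  obtain ⟨h3, h4, r, hr, γ, hγ, h5⟩ := hFBR F h2 n α β α' β' S c₀ y₀.1 y.1 (gc c₀ y₀.1)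
    (gc c₀ y.1) hS
    (by
      intro P hPm hPi hPS
      obtain ⟨p, hp⟩ := hy₀.1.1.2
      rw [hp, dsc_sh]
      exact hf.2.2.2 P hPm hPi hPS)
    hy₀.1.1.1 hy.1.1.1 hE₀ hE
    (by
      intro P hP
      obtain ⟨κ, r, hκ, hr, h, -⟩ := hEP ⟨P, hP⟩
      exact ⟨κ, r, hκ, hr, h⟩)
    (by
      obtain ⟨κ, r, hκ, hr, h, -⟩ := hEI
      exact ⟨κ, r, hκ, hr, h⟩)
  subst h3
  subst h4
  refine ⟨rfl, rfl, ?_⟩
  have hl : ∀ P : {P // P ∈ S}, ∃ l : AdjoinRoot P.1, l ≠ 0 ∧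
      γ.map (AdjoinRoot.mk P.1) *ᵥ y.2.1 P = l • y₀.2.1 P := by
    intro P
    have hD := hDVP.1 F P.1 (hS P.1 P.2).2
    obtain ⟨t, ht, h6⟩ := place_key hD hd₀ ((hGAF F γ).1 P.1 (hS P.1 P.2).2 hγ.1) hr h5 (hEP P)
    obtain ⟨l, hl0, hl⟩ := red_unit hRDP hDVP (hS P.1 P.2).1 (hS P.1 P.2).2 ht
    refine ⟨AdjoinRoot.mk P.1 l, hl0, ?_⟩
    have h7 := ((hRDP F P.1 (hS P.1 P.2).1 (hS P.1 P.2).2).1
      (pv (γ *ᵥ lfP P.1 (y.2.1 P))) (pv (l • lfP P.1 (y₀.2.1 P)))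
      (fun i => pv_mem (hS P.1 P.2).2 _ i) (fun i => pv_mem (hS P.1 P.2).2 _ i)).2 (by
        intro i
        have h8 : (pv (γ *ᵥ lfP P.1 (y.2.1 P)) i - pv (l • lfP P.1 (y₀.2.1 P)) i) /
            algebraMap F[X] (RatFunc F) P.1 =
            ((γ.map (algebraMap F[X] (RatFunc F)) *ᵥ pv (lfP P.1 (y.2.1 P))) i -
              t * pv (lfP P.1 (y₀.2.1 P)) i) / algebraMap F[X] (RatFunc F) P.1 +
            ((t - algebraMap F[X] (RatFunc F) l) / algebraMap F[X] (RatFunc F) P.1) *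
              pv (lfP P.1 (y₀.2.1 P)) i := by
          have h9 : pv (l • lfP P.1 (y₀.2.1 P)) i =
              algebraMap F[X] (RatFunc F) l * pv (lfP P.1 (y₀.2.1 P)) i := by
            unfold pv
            rw [Pi.smul_apply, smul_eq_mul, map_mul]
          rw [h9, mul_pv]
          ring
        rw [h8]
        have h10 := h6 i
        have h11 := pv_mem (hS P.1 P.2).2 (lfP P.1 (y₀.2.1 P)) i
        obtain ⟨V, hV⟩ := hD.val
        rw [← hV] at h10 h11 hl ⊢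
        exact V.add_mem _ _ h10 (V.mul_mem _ _ hl h11))
    rw [(hRDP F P.1 (hS P.1 P.2).1 (hS P.1 P.2).2).2.1,
      (hRDP F P.1 (hS P.1 P.2).1 (hS P.1 P.2).2).2.1] at h7
    funext i
    have h8 := congrFun h7 i
    rw [mk_mulVec, Pi.smul_apply, smul_eq_mul, map_mul, lfP_spec] at h8
    simp only [lfP_spec] at h8
    rw [Pi.smul_apply, smul_eq_mul]
    exact h8
  choose l hl0 hl using hl
  have hD := hDVP.2.1 F
  have h6 : gc c₀ y.1 * (Dg (dv α β))⁻¹ = r • (gc c₀ y₀.1 * (Dg (dv α β))⁻¹ *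
      (Dg (dv α β) * γ.map (algebraMap F[X] (RatFunc F)) * (Dg (dv α β))⁻¹)) := by
    have h7 : (Dg (dv α β))⁻¹ * (Dg (dv α β) * γ.map (algebraMap F[X] (RatFunc F)) *
        (Dg (dv α β))⁻¹) = γ.map (algebraMap F[X] (RatFunc F)) * (Dg (dv α β))⁻¹ := by
      rw [← Matrix.mul_assoc, ← Matrix.mul_assoc, Matrix.nonsing_inv_mul _ hDu, Matrix.one_mul]
    rw [Matrix.mul_assoc (gc c₀ y₀.1), h7, h5, Matrix.smul_mul, Matrix.mul_assoc]
  obtain ⟨t, ht, h7⟩ := place_key hD (by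
    rw [Matrix.det_mul]
    exact mul_ne_zero hd₀ hDi) ((hGAF F γ).2 (dv α β) hγ) hr h6 hEI
  obtain ⟨li, hli0, hli⟩ := red_unitI hRDI hDVP ht
  refine ⟨γ, l, li, hl0, hli0, hγ, ?_, hl, ?_⟩
  · have h8 := hE₀.symm.trans hE
    have h9 : γ.map (algebraMap F[X] (RatFunc F)) = r⁻¹ • ((gc c₀ y₀.1)⁻¹ * gc c₀ y.1) := by
      rw [h5, Matrix.mul_smul, ← Matrix.mul_assoc, Matrix.nonsing_inv_mul _ hE₀.1,
        Matrix.one_mul, smul_smul, inv_mul_cancel₀ hr, one_smul]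
    rw [h9]
    exact h8.smul (isUnit_iff_ne_zero.2 (inv_ne_zero hr))
  · intro i
    have h8 : (((Dg (dv α β) * γ.map (algebraMap F[X] (RatFunc F)) * (Dg (dv α β))⁻¹) *ᵥ
        pv (fun j => C (lfX y.2.2 j))) i - algebraMap F[X] (RatFunc F) (C li) *
        pv (fun j => C (lfX y₀.2.2 j)) i) / (RatFunc.X)⁻¹ =
        (((Dg (dv α β) * γ.map (algebraMap F[X] (RatFunc F)) * (Dg (dv α β))⁻¹) *ᵥ
        pv (fun j => C (lfX y.2.2 j))) i - t *
        pv (fun j => C (lfX y₀.2.2 j)) i) / (RatFunc.X)⁻¹ +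
        ((t - algebraMap F[X] (RatFunc F) (C li)) / (RatFunc.X)⁻¹) *
          pv (fun j => C (lfX y₀.2.2 j)) i := by ring
    rw [h8]
    exact (AVR.OInf F).add_mem (h7 i) ((AVR.OInf F).mul_mem hli (const_mem _))

end Pairs

section Fibre

variable {F : Type} [Field F] [Finite F] {S : Finset F[X]}

/-- The scalars. -/
abbrev Lt (S : Finset F[X]) : Type :=
  (∀ P : {P // P ∈ S}, {x : AdjoinRoot P.1 // x ≠ 0}) × {x : F // x ≠ 0}

theorem Lt_finite (hS : ∀ P ∈ S, P.Monic ∧ Irreducible P) : Finite (Lt S) := by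
  have h1 : ∀ P : {P // P ∈ S}, Finite {x : AdjoinRoot P.1 // x ≠ 0} := fun P => by
    have := (Pool.Agent.H15.AV3B.card_adj (hS P.1 P.2).1).1
    infer_instance
  infer_instance

theorem fibre_le (hGIR : GIRStmt) (hDVP : DVPStmt) (hGAF : GAFStmt) (hRDI : RDIStmt)
    (hGRC : GRCStmt) {α β : ℕ} (hS : ∀ P ∈ S, P.Monic ∧ Irreducible P) {y₀ : Yt S} {A : Type}
    (e : A → Yt S) (he : Function.Injective e)
    (hA : ∀ a, ∃ (γ : Matrix (Fin 3) (Fin 3) F[X])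
      (l : ∀ P : {P // P ∈ S}, AdjoinRoot P.1) (li : F), (∀ P, l P ≠ 0) ∧ li ≠ 0 ∧
        Rel α β S y₀ (e a) γ l li) :
    Nat.card A * Nat.card {u : F // u ≠ 0} ≤
      (G3 (dv α β) : Set (Matrix (Fin 3) (Fin 3) F[X])).ncard * Nat.card (Lt S) := by
  choose γ l li hl hli hR using hA
  have h1 : ∀ (P : {P // P ∈ S}) (u : {u : F // u ≠ 0}) (a : A),
      AdjoinRoot.mk P.1 (C u.1) * l a P ≠ 0 := by
    intro P u a h
    have h2 : IsUnit (AdjoinRoot.mk P.1 (C u.1)) :=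
      (isUnit_C.2 (isUnit_iff_ne_zero.2 u.2)).map _
    exact hl a P (h2.mul_right_eq_zero.1 h)
  have hfG : Finite (G3 (dv α β) : Set (Matrix (Fin 3) (Fin 3) F[X])) :=
    ((hGRC F).1 α β).to_subtype
  have hfL := Lt_finite hS
  set Φ : A × {u : F // u ≠ 0} → (G3 (dv α β) : Set (Matrix (Fin 3) (Fin 3) F[X])) × Lt S :=
    fun x => (⟨C x.2.1 • γ x.1, mem_G3_smul (hR x.1).1 x.2.2⟩,
      (fun P => ⟨AdjoinRoot.mk P.1 (C x.2.1) * l x.1 P, h1 P x.2 x.1⟩,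
        ⟨x.2.1 * li x.1, mul_ne_zero x.2.2 (hli x.1)⟩)) with hΦ
  have hinj : Function.Injective Φ := by
    rintro ⟨a, u, hu⟩ ⟨a', u', hu'⟩ h
    rw [hΦ] at h
    simp only [Prod.mk.injEq, Subtype.mk.injEq] at h
    obtain ⟨h2, h3, h4⟩ := h
    have h5 : ∀ P : {P // P ∈ S}, AdjoinRoot.mk P.1 (C u) * l a P =
        AdjoinRoot.mk P.1 (C u') * l a' P := by
      intro P
      exact congrArg Subtype.val (congrFun h3 P)
    have h6 := rel_smul (hR a) hu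
    have h7 := rel_smul (hR a') hu'
    rw [← h2, ← h4] at h7
    have h8 : (fun P : {P // P ∈ S} => AdjoinRoot.mk P.1 (C u') * l a' P) =
        fun P => AdjoinRoot.mk P.1 (C u) * l a P := by
      funext P
      exact (h5 P).symm
    rw [h8] at h7
    have h9 := he (rel_unique hGIR hDVP hGAF hRDI h6 h7)
    subst h9
    have h10 : u = u' := mul_right_cancel₀ (hli a) h4
    subst h10
    rfl
  have h2 := Nat.card_le_card_of_injective Φ hinj
  rwa [Nat.card_prod, Nat.card_prod, Nat.card_coe_set_eq] at h2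

theorem card_Lt (hS : ∀ P ∈ S, P.Monic ∧ Irreducible P) : (Nat.card (Lt S) : ℝ) =
    (∏ P : {P // P ∈ S}, ((Nat.card (AdjoinRoot P.1) : ℝ) - 1)) * ((Nat.card F : ℝ) - 1) := by
  have hq1 : 1 ≤ Nat.card F := Nat.card_pos
  rw [Nat.card_prod, Nat.card_pi, Pool.Agent.H15.AV3B.card_ne_zero_sub]
  push_cast
  rw [Nat.cast_sub hq1, Nat.cast_one]
  congr 1
  apply Finset.prod_congr rfl
  intro P _
  have := (Pool.Agent.H15.AV3B.card_adj (hS P.1 P.2).1).1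
  rw [Pool.Agent.H15.AV3B.card_ne_zero_sub, Nat.cast_sub, Nat.cast_one]
  exact Nat.card_pos

open Classical in
/-- The number of tuples. -/
theorem card_TT (hCNV : CNVStmt) {n α β : ℕ} (hα : α ≤ n) (hβ : β ≤ n)
    {f : F[X] × F[X] × F[X]} {c₀ : Fin 10 → RatFunc F}
    (hS : ∀ P ∈ S, P.Monic ∧ Irreducible P) :
    (TT n α β S f c₀).Finite ∧ (Nat.card (TT n α β S f c₀) : ℝ) =
      ∑ᶠ c ∈ ClS n α β f c₀, (∏ P ∈ S, (gdk (md P c) : ℝ)) *
          gdk (md X (cinf n (dv α β) c)) := by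
  have hC : (ClS n α β f c₀).Finite := (hCNV F n α β hα hβ).1.subset (fun c hc => hc.1.1)
  have hfA : ∀ P : {P // P ∈ S}, Finite (Fin 3 → AdjoinRoot P.1) := fun P => by
    have := (Pool.Agent.H15.AV3B.card_adj (hS P.1 P.2).1).1
    infer_instance
  have hfX : Finite (Fin 3 → AdjoinRoot (X : F[X])) := by
    have := (Pool.Agent.H15.AV3B.card_adj (monic_X (R := F))).1
    infer_instance
  have hset : TT n α β S f c₀ = ↑(hC.toFinset.biUnion (fun c => ({c} : Finset (Fin 10 → F[X])) ×ˢ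
      ((Fintype.piFinset fun P : {P // P ∈ S} =>
        (Set.toFinite {v | Good (md P.1 c) v}).toFinset) ×ˢ
        (Set.toFinite {v | Good (md X (cinf n (dv α β) c)) v}).toFinset))) := by
    ext y
    rw [Finset.mem_coe, Finset.mem_biUnion]
    constructor
    · intro hy
      refine ⟨y.1, hC.mem_toFinset.mpr hy.1, ?_⟩
      rw [Finset.mem_product, Finset.mem_product, Fintype.mem_piFinset]
      refine ⟨Finset.mem_singleton_self _, ?_, ?_⟩
      · intro P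
        rw [Set.Finite.mem_toFinset]
        exact hy.2.1 P
      · rw [Set.Finite.mem_toFinset]
        exact hy.2.2
    · rintro ⟨c, hc, h⟩
      rw [Finset.mem_product, Finset.mem_product, Fintype.mem_piFinset,
        Finset.mem_singleton] at h
      obtain ⟨h1, h2, h3⟩ := h
      subst h1
      refine ⟨hC.mem_toFinset.mp hc, ?_, ?_⟩
      · intro P
        have := h2 P
        rw [Set.Finite.mem_toFinset] at this
        exact this
      · rw [Set.Finite.mem_toFinset] at h3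
        exact h3
  refine ⟨by rw [hset]; exact Finset.finite_toSet _, ?_⟩
  rw [Nat.card_coe_set_eq, hset, Set.ncard_coe_finset, Finset.card_biUnion,
    finsum_mem_eq_finite_toFinset_sum _ hC]
  · push_cast
    apply Finset.sum_congr rfl
    intro c _
    rw [Finset.card_product, Finset.card_product, Finset.card_singleton, one_mul,
      Fintype.card_piFinset]
    push_cast
    unfold gdk
    rw [← Finset.prod_coe_sort S (fun P => ({v | Good (md P c) v}.ncard : ℝ))]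
    congr 1
    · apply Finset.prod_congr rfl
      intro P _
      rw [Set.ncard_eq_toFinset_card _ (Set.toFinite _)]
    · rw [Set.ncard_eq_toFinset_card _ (Set.toFinite _)]
  · intro c _ c' _ hne
    rw [Function.onFun, Finset.disjoint_left]
    intro y hy hy'
    rw [Finset.mem_product, Finset.mem_singleton] at hy hy'
    exact hne (hy.1.symm.trans hy'.1)

end Fibre

section Main

variable {F : Type} [Field F]

theorem one_mem_G3 (d : Fin 3 → ℤ) : (1 : Matrix (Fin 3) (Fin 3) F[X]) ∈ G3 d :=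
  Pool.Agent.H15.AV3B.one_mem_G3 d

/-- The indices. -/
abbrev Qx (hEQR : EQRStmt) (hGIR : GIRStmt) (hDVP : DVPStmt) (n : ℕ) (S : Finset F[X])
    (hS : ∀ P ∈ S, P.Monic ∧ Irreducible P) (c₀ : Fin 10 → RatFunc F) : Type :=
  (∀ P : {P // P ∈ S}, Quotient (eqS hEQR hGIR (hDVP.1 F P.1 (hS P.1 P.2).2) c₀)) ×
    Quotient (eqS hEQR hGIR (hDVP.2.1 F) (((RatFunc.X : RatFunc F) ^ n)⁻¹ • c₀))

/-- The index of a tuple. -/
noncomputable def clx (hEQR : EQRStmt) (hGIR : GIRStmt) (hDVP : DVPStmt) (hRDG : RDGStmt)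
    (hVDI : VDIStmt) (n : ℕ) (S : Finset F[X]) (hS : ∀ P ∈ S, P.Monic ∧ Irreducible P)
    (f : F[X] × F[X] × F[X]) (c₀ : Fin 10 → RatFunc F) (α β : ℕ) (y : TT n α β S f c₀) :
    Qx hEQR hGIR hDVP n S hS c₀ :=
  (fun P => Quotient.mk _ ⟨(gc c₀ y.1.1, pv (lfP P.1 (y.1.2.1 P))), kp_P hRDG hVDI hS y.2 P⟩,
    Quotient.mk _ ⟨(gc c₀ y.1.1 * (Dg (dv α β))⁻¹, pv fun j => C (lfX y.1.2.2 j)),
      kp_I hRDG hVDI y.2⟩)

end Main

/-- WL1. -/
theorem wl1_thm (hLLP3 : LLP3Stmt) (hLLI3 : LLI3Stmt) (hRDG : RDGStmt) (hVDI : VDIStmt)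
    (hFBR : FBRStmt) (hEQR : EQRStmt) (hDVP : DVPStmt) (hGIR : GIRStmt) (hGAF : GAFStmt)
    (hRDP : RDPStmt) (hRDI : RDIStmt) (hCNV : CNVStmt) (hGRC : GRCStmt) : WL1Stmt := by
  intro F _ _ h2 n N S f hf hN hS c₀ hc₀
  have hq2 : 2 ≤ Nat.card F := by
    have h1 : 1 < Nat.card F := Finite.one_lt_card
    omega
  have hqr : (2 : ℝ) ≤ Nat.card F := by exact_mod_cast hq2
  have hκ : ∀ P : F[X], P.Monic → Irreducible P →
      (0 : ℝ) < (Nat.card (AdjoinRoot P) : ℝ) - 1 := by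
    intro P hPm hPi
    rw [(Pool.Agent.H15.AV3B.card_adj hPm).2]
    have h3 : 1 < Nat.card F ^ P.natDegree :=
      Nat.one_lt_pow hPi.natDegree_pos.ne' (by omega)
    have h4 : (1 : ℝ) < ((Nat.card F ^ P.natDegree : ℕ) : ℝ) := by exact_mod_cast h3
    linarith
  have hcX : Nat.card (AdjoinRoot (X : F[X])) = Nat.card F := by
    rw [(Pool.Agent.H15.AV3B.card_adj monic_X).2, natDegree_X, pow_one]
  have hQP : ∀ P : {P // P ∈ S},
      Finite (Quotient (eqS hEQR hGIR (hDVP.1 F P.1 (hS P.1 P.2).2) c₀)) ∧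
      ((Nat.card (AdjoinRoot P.1) : ℝ) - 1) *
        Nat.card (Quotient (eqS hEQR hGIR (hDVP.1 F P.1 (hS P.1 P.2).2) c₀)) ≤ Bw P.1 N f := by
    intro P
    apply quo_card
    · exact hκ P.1 (hS P.1 P.2).1 (hS P.1 P.2).2
    · intro M g v h3 h4
      exact hLLP3 F h2 f c₀ hc₀ P.1 (hS P.1 P.2).1 (hS P.1 P.2).2 N hN (hf.2.1 P.1 P.2) M g v h3 h4
  have hQI : Finite (Quotient (eqS hEQR hGIR (hDVP.2.1 F)
      (((RatFunc.X : RatFunc F) ^ n)⁻¹ • c₀))) ∧
      ((Nat.card (AdjoinRoot (X : F[X])) : ℝ) - 1) *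
        Nat.card (Quotient (eqS hEQR hGIR (hDVP.2.1 F)
          (((RatFunc.X : RatFunc F) ^ n)⁻¹ • c₀))) ≤ Bw X N (AVS.finf n f) := by
    apply quo_card
    · exact hκ X monic_X irreducible_X
    · intro M g v h3 h4
      exact hLLI3 F h2 n f hf.1.1.1 c₀ hc₀ N hN hf.2.2.1 M g v h3 h4
  have hfinP : ∀ P : {P // P ∈ S},
      Finite (Quotient (eqS hEQR hGIR (hDVP.1 F P.1 (hS P.1 P.2).2) c₀)) := fun P => (hQP P).1
  have hfinI := hQI.1
  have hfinQ : Finite (Qx hEQR hGIR hDVP n S hS c₀) := inferInstance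
  have hGpos : ∀ α β, 0 < (G3 (dv α β) : Set (Matrix (Fin 3) (Fin 3) F[X])).ncard := fun α β =>
    (Set.ncard_pos ((hGRC F).1 α β)).mpr ⟨1, one_mem_G3 _⟩
  have hrel : ∀ (α β α' β' : ℕ) (y : TT n α β S f c₀) (y' : TT n α' β' S f c₀),
      clx hEQR hGIR hDVP hRDG hVDI n S hS f c₀ α β y =
        clx hEQR hGIR hDVP hRDG hVDI n S hS f c₀ α' β' y' →
      α = α' ∧ β = β' ∧ ∃ (γ : Matrix (Fin 3) (Fin 3) F[X])
      (l : ∀ P : {P // P ∈ S}, AdjoinRoot P.1) (li : F), (∀ P, l P ≠ 0) ∧ li ≠ 0 ∧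
        Rel α β S y.1 y'.1 γ l li := by
    intro α β α' β' y y' h
    apply rel_exists hFBR hGAF hRDP hRDI hDVP h2 hf hS y.2 y'.2
    · intro P
      have h3 := congrFun (congrArg Prod.fst h) P
      exact Quotient.exact h3
    · have h3 := congrArg Prod.snd h
      exact Quotient.exact h3
  have hfc := final_count (Q := Qx hEQR hGIR hDVP n S hS c₀) n (fun α β => TT n α β S f c₀)
    (fun α β hα hβ => (card_TT hCNV hα hβ hS).1.to_subtype)
    (fun α β => clx hEQR hGIR hDVP hRDG hVDI n S hS f c₀ α β)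
    (fun α β => ((G3 (dv α β) : Set (Matrix (Fin 3) (Fin 3) F[X])).ncard : ℝ))
    (fun α β => by exact_mod_cast hGpos α β) ((Nat.card F : ℝ) - 1) (Nat.card (Lt S))
    (Nat.cast_nonneg _)
    (by
      intro α β hα hβ q
      by_cases hne : Nonempty {y : TT n α β S f c₀ //
          clx hEQR hGIR hDVP hRDG hVDI n S hS f c₀ α β y = q}
      · obtain ⟨⟨y₀, hy₀⟩⟩ := hne
        have h3 := fibre_le hGIR hDVP hGAF hRDI hGRC (α := α) (β := β) hS (y₀ := y₀.1)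
          (A := {y : TT n α β S f c₀ //
            clx hEQR hGIR hDVP hRDG hVDI n S hS f c₀ α β y = q})
          (fun a => a.1.1) (fun a a' h => Subtype.ext (Subtype.ext h))
          (fun a => (hrel α β α β y₀ a.1 (hy₀.trans a.2.symm)).2.2)
        have h4 : ((Nat.card {y : TT n α β S f c₀ //
            clx hEQR hGIR hDVP hRDG hVDI n S hS f c₀ α β y = q} : ℕ) : ℝ) *
            (Nat.card {u : F // u ≠ 0} : ℝ) ≤
            ((G3 (dv α β) : Set (Matrix (Fin 3) (Fin 3) F[X])).ncard : ℝ) *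
              (Nat.card (Lt S) : ℝ) := by exact_mod_cast h3
        rw [Pool.Agent.H15.AV3B.card_ne_zero_sub, Nat.cast_sub (by omega), Nat.cast_one] at h4
        rw [mul_comm]
        exact h4
      · rw [not_nonempty_iff] at hne
        have h0 : Nat.card {y : TT n α β S f c₀ //
            clx hEQR hGIR hDVP hRDG hVDI n S hS f c₀ α β y = q} = 0 := Nat.card_of_isEmpty
        rw [h0, Nat.cast_zero, mul_zero]
        positivity)
    (fun α β α' β' y y' h => ⟨(hrel α β α' β' y y' h).1, (hrel α β α' β' y y' h).2.1⟩)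
  have hL : ∑ α ∈ Finset.range (n + 1), ∑ β ∈ Finset.range (n + 1),
        (∑ᶠ c ∈ ClS n α β f c₀, (∏ P ∈ S, (gdk (md P c) : ℝ)) *
          gdk (md X (cinf n (dv α β) c))) /
          (G3 (dv α β) : Set (Matrix (Fin 3) (Fin 3) F[X])).ncard =
      ∑ α ∈ Finset.range (n + 1), ∑ β ∈ Finset.range (n + 1),
        (Nat.card (TT n α β S f c₀) : ℝ) /
          (G3 (dv α β) : Set (Matrix (Fin 3) (Fin 3) F[X])).ncard := by
    refine Finset.sum_congr rfl (fun α hα => Finset.sum_congr rfl (fun β hβ => ?_))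
    rw [Finset.mem_range] at hα hβ
    rw [(card_TT hCNV (by omega) (by omega) hS).2]
  rw [hL]
  refine hfc.trans ?_
  rw [card_Lt hS, Nat.card_prod, Nat.card_pi]
  push_cast
  have e : (∏ P : {P // P ∈ S},
      (Nat.card (Quotient (eqS hEQR hGIR (hDVP.1 F P.1 (hS P.1 P.2).2) c₀)) : ℝ)) *
      (Nat.card (Quotient (eqS hEQR hGIR (hDVP.2.1 F)
          (((RatFunc.X : RatFunc F) ^ n)⁻¹ • c₀))) : ℝ) *
      ((∏ P : {P // P ∈ S}, ((Nat.card (AdjoinRoot P.1) : ℝ) - 1)) * ((Nat.card F : ℝ) - 1)) =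
      (∏ P : {P // P ∈ S}, ((Nat.card (AdjoinRoot P.1) : ℝ) - 1) *
        (Nat.card (Quotient (eqS hEQR hGIR (hDVP.1 F P.1 (hS P.1 P.2).2) c₀)) : ℝ)) *
      (((Nat.card F : ℝ) - 1) * (Nat.card (Quotient (eqS hEQR hGIR (hDVP.2.1 F)
          (((RatFunc.X : RatFunc F) ^ n)⁻¹ • c₀))) : ℝ)) := by
    rw [Finset.prod_mul_distrib]
    ring
  rw [e, ← Finset.prod_coe_sort S (fun P => Bw P N f)]
  have hB2 := hQI.2
  rw [hcX] at hB2
  have hB0 : 0 ≤ Bw X N (AVS.finf n f) := by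
    refine le_trans ?_ hB2
    apply mul_nonneg
    · linarith
    · positivity
  refine mul_le_mul ?_ hB2 (by
    apply mul_nonneg
    · linarith
    · positivity) ?_
  · apply Finset.prod_le_prod
    · intro P _
      exact mul_nonneg (hκ P.1 (hS P.1 P.2).1 (hS P.1 P.2).2).le (Nat.cast_nonneg _)
    · intro P _
      exact (hQP P).2
  · apply Finset.prod_nonneg
    intro P _
    refine le_trans ?_ (hQP P).2
    exact mul_nonneg (hκ P.1 (hS P.1 P.2).1 (hS P.1 P.2).2).le (Nat.cast_nonneg _)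

end Pool.Agent.H28.AV3C
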