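import Pool.Agent.H8.AV3.Stmts6

/-!
# AV3C, module WL1: local lemmas
-/

set_option autoImplicit false

namespace Pool.Agent.H28.AV3C

open Polynomial Matrix Pool.AVR Pool.AV3

section Count

/-- A type in which every finite injective family is bounded. -/
theorem card_of_bound {A : Type} (k B : ℝ) (hk : 0 < k)
    (h : ∀ (M : ℕ) (i : Fin M → A), Function.Injective i → k * M ≤ B) :
    Finite A ∧ k * Nat.card A ≤ B := by
  have hfin : Finite A := by
    by_contra hinf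
    rw [not_finite_iff_infinite] at hinf
    obtain ⟨M, hM⟩ := exists_nat_gt (B / k)
    have h1 := h M (fun j => Infinite.natEmbedding A (j : ℕ))
      (fun a b hab => Fin.ext ((Infinite.natEmbedding A).injective hab))
    rw [div_lt_iff₀ hk] at hM
    linarith
  refine ⟨hfin, ?_⟩
  have e := (Finite.equivFin A).symm
  exact h _ e e.injective

theorem sum_le_one {A : Type} (s : Finset A) (w : A → ℝ) (B : ℝ) (hB : 0 ≤ B)
    (hw : ∀ i ∈ s, w i ≤ B) (h1 : ∀ i ∈ s, ∀ j ∈ s, w i ≠ 0 → w j ≠ 0 → i = j) :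
    ∑ i ∈ s, w i ≤ B := by
  classical
  by_cases h0 : ∀ i ∈ s, w i = 0
  · rw [Finset.sum_eq_zero h0]
    exact hB
  · push Not at h0
    obtain ⟨i, hi, hi0⟩ := h0
    rw [Finset.sum_eq_single_of_mem i hi]
    · exact hw i hi
    · intro j hj hji
      by_contra hj0
      exact hji (h1 j hj i hi hj0 hi0)

end Count

section Place

variable {K : Type} [Field K] {I : Set K} {π : K}

/-- The pairs (lattice, good point). -/
abbrev PR (I : Set K) (π : K) (c : Fin 10 → K) : Type :=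
  {p : Matrix (Fin 3) (Fin 3) K × (Fin 3 → K) // KP3 I π c p.1 p.2}

theorem eq3_refl (hGIR : GIRStmt) (hD : Dv I π) (g : Matrix (Fin 3) (Fin 3) K)
    (v : Fin 3 → K) : Eq3 I π g v g v := by
  obtain ⟨V, hV⟩ := hD.val
  have h1 : (1 : K) ∈ I := by
    rw [← hV]
    exact V.one_mem
  have h0 : (0 : K) ∈ I := by
    rw [← hV]
    exact V.zero_mem
  refine ⟨1, 1, (hGIR K I π hD).1, one_ne_zero, by rw [Matrix.mul_one, one_smul], 1,
    ⟨one_ne_zero, h1, by rwa [inv_one]⟩, fun i => ?_⟩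
  rw [Matrix.one_mulVec, one_mul, sub_self, zero_div]
  exact h0

/-- The equivalence relation on the pairs. -/
def eqS (hEQR : EQRStmt) (hGIR : GIRStmt) (hD : Dv I π) (c : Fin 10 → K) :
    Setoid (PR I π c) where
  r p p' := Eq3 I π p.1.1 p.1.2 p'.1.1 p'.1.2
  iseqv := by
    refine ⟨fun p => eq3_refl hGIR hD _ _, fun {p p'} h => ?_, fun {p p' p''} h h' => ?_⟩
    · exact (hEQR K I π hD).1 _ _ _ _ p.2.1 p.2.2.2.1 p'.2.2.2.1 h
    · exact (hEQR K I π hD).2 _ _ _ _ _ _ p.2.2.2.1 p'.2.2.2.1 p''.2.2.2.1 h h'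

theorem quo_card (hEQR : EQRStmt) (hGIR : GIRStmt) (hD : Dv I π) (c : Fin 10 → K) (k B : ℝ)
    (hk : 0 < k)
    (h : ∀ (M : ℕ) (g : Fin M → Matrix (Fin 3) (Fin 3) K) (v : Fin M → Fin 3 → K),
      (∀ i, KP3 I π c (g i) (v i)) → (∀ i j, i ≠ j → ¬ Eq3 I π (g i) (v i) (g j) (v j)) →
      k * M ≤ B) :
    Finite (Quotient (eqS hEQR hGIR hD c)) ∧ k * Nat.card (Quotient (eqS hEQR hGIR hD c)) ≤ B := by
  apply card_of_bound k B hk
  intro M i hi
  apply h M (fun j => (Quotient.out (i j)).1.1) (fun j => (Quotient.out (i j)).1.2)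
    (fun j => (Quotient.out (i j)).2)
  intro j j' hne he
  apply hne
  apply hi
  have h1 : Quotient.mk (eqS hEQR hGIR hD c) (Quotient.out (i j)) =
      Quotient.mk (eqS hEQR hGIR hD c) (Quotient.out (i j')) := Quotient.sound he
  rwa [Quotient.out_eq, Quotient.out_eq] at h1

theorem ui_cube (hD : Dv I π) {s : K} (h : AVS.UI I (s ^ 3)) : AVS.UI I s := by
  obtain ⟨V, rfl⟩ := hD.val
  obtain ⟨h0, h1, h2⟩ := h
  have hs : s ≠ 0 := by
    rintro rfl
    apply h0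
    norm_num
  have h1' : s ^ 3 ∈ V := h1
  have h2' : (s ^ 3)⁻¹ ∈ V := h2
  refine ⟨hs, ?_, ?_⟩
  · show s ∈ V
    rcases V.mem_or_inv_mem s with h3 | h3
    · exact h3
    · have h4 := V.mul_mem _ _ (V.mul_mem _ _ h3 h3) h1'
      have h5 : s⁻¹ * s⁻¹ * s ^ 3 = s := by
        field_simp
      rwa [h5] at h4
  · show s⁻¹ ∈ V
    rcases V.mem_or_inv_mem s with h3 | h3
    · have h4 := V.mul_mem _ _ (V.mul_mem _ _ h3 h3) h2'
      have h5 : s * s * (s ^ 3)⁻¹ = s⁻¹ := by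
        field_simp
      rwa [h5] at h4
    · exact h3

theorem ui_mul (hD : Dv I π) {s t : K} (hs : AVS.UI I s) (ht : AVS.UI I t) :
    AVS.UI I (s * t) := by
  obtain ⟨V, rfl⟩ := hD.val
  refine ⟨mul_ne_zero hs.1 ht.1, ?_, ?_⟩
  · exact V.mul_mem _ _ hs.2.1 ht.2.1
  · rw [mul_inv]
    exact V.mul_mem _ _ hs.2.2 ht.2.2

theorem ui_inv {s : K} (hs : AVS.UI I s) : AVS.UI I s⁻¹ :=
  ⟨inv_ne_zero hs.1, hs.2.2, by rw [inv_inv]; exact hs.2.1⟩

theorem det_smul3 (s : K) (g : Matrix (Fin 3) (Fin 3) K) : (s • g).det = s ^ 3 * g.det := by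
  rw [Matrix.det_smul]
  simp

/-- The key local lemma: a change of basis which is invertible over `I` matches equivalent
pairs. -/
theorem place_key (hD : Dv I π) {g g' δ : Matrix (Fin 3) (Fin 3) K} {v v' : Fin 3 → K} {r : K}
    (hg : g.det ≠ 0) (hδ : AVS.GI I δ) (hr : r ≠ 0) (h : g' = r • (g * δ))
    (hE : Eq3 I π g v g' v') :
    ∃ t : K, AVS.UI I t ∧ ∀ i, ((δ *ᵥ v') i - t * v i) / π ∈ I := by
  obtain ⟨κ, r', hκ, hr', h', t, ht, hv⟩ := hE
  have hu : IsUnit g.det := isUnit_iff_ne_zero.2 hg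
  have h1 : r' • κ = r • δ := by
    have h2 : g⁻¹ * (r' • (g * κ)) = g⁻¹ * (r • (g * δ)) := by rw [← h, ← h']
    rwa [Matrix.mul_smul, Matrix.mul_smul, ← Matrix.mul_assoc, ← Matrix.mul_assoc,
      Matrix.nonsing_inv_mul _ hu, Matrix.one_mul, Matrix.one_mul] at h2
  have h3 : δ = (r⁻¹ * r') • κ := by
    rw [mul_smul, h1, smul_smul, inv_mul_cancel₀ hr, one_smul]
  have hs : AVS.UI I (r⁻¹ * r') := by
    apply ui_cube hD
    have h4 : (r⁻¹ * r') ^ 3 = δ.det * κ.det⁻¹ := by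
      rw [h3, det_smul3, mul_assoc, mul_inv_cancel₀ hκ.2.1, mul_one]
    rw [h4]
    exact ui_mul hD hδ.2 (ui_inv hκ.2)
  refine ⟨r⁻¹ * r' * t, ui_mul hD hs ht, fun i => ?_⟩
  have h5 : ((δ *ᵥ v') i - r⁻¹ * r' * t * v i) / π =
      (r⁻¹ * r') * (((κ *ᵥ v') i - t * v i) / π) := by
    rw [h3, Matrix.smul_mulVec, Pi.smul_apply, smul_eq_mul]
    ring
  rw [h5]
  obtain ⟨V, rfl⟩ := hD.val
  exact V.mul_mem _ _ hs.2.1 (hv i)

end Place

end Pool.Agent.H28.AV3C
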