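import Pool.Agent.H28.AV3C.WL1a

/-!
# AV3C, module WL1: the relation between two tuples
-/

set_option autoImplicit false

namespace Pool.Agent.H28.AV3C

open Polynomial Matrix Pool.AVR Pool.AV3

section Lifts

variable {F : Type} [Field F]

/-- The targets. -/
abbrev Yt (S : Finset F[X]) : Type :=
  (Fin 10 → F[X]) × ((∀ P : {P // P ∈ S}, Fin 3 → AdjoinRoot P.1) ×
    (Fin 3 → AdjoinRoot (X : F[X])))

/-- The tuples of one degree type. -/
def TT (n α β : ℕ) (S : Finset F[X]) (f : F[X] × F[X] × F[X]) (c₀ : Fin 10 → RatFunc F) :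
    Set (Yt S) :=
  {y | y.1 ∈ ClS n α β f c₀ ∧ (∀ P : {P // P ∈ S}, Good (md P.1 y.1) (y.2.1 P)) ∧
    Good (md X (cinf n (dv α β) y.1)) y.2.2}

/-- Lifts to polynomials. -/
noncomputable def lfP (P : F[X]) (z : Fin 3 → AdjoinRoot P) : Fin 3 → F[X] :=
  fun i => Function.surjInv AdjoinRoot.mk_surjective (z i)

theorem lfP_spec (P : F[X]) (z : Fin 3 → AdjoinRoot P) (i : Fin 3) :
    AdjoinRoot.mk P (lfP P z i) = z i := Function.surjInv_eq _ _

theorem const_surj : Function.Surjective fun a : F => AdjoinRoot.mk (X : F[X]) (C a) := by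
  intro y
  obtain ⟨p, rfl⟩ := AdjoinRoot.mk_surjective y
  refine ⟨p.coeff 0, ?_⟩
  show AdjoinRoot.mk (X : F[X]) (C (p.coeff 0)) = AdjoinRoot.mk (X : F[X]) p
  rw [← sub_eq_zero, ← map_sub, AdjoinRoot.mk_eq_zero, Polynomial.X_dvd_iff]
  simp

/-- Lifts to constants. -/
noncomputable def lfX (z : Fin 3 → AdjoinRoot (X : F[X])) : Fin 3 → F :=
  fun i => Function.surjInv const_surj (z i)

theorem lfX_spec (z : Fin 3 → AdjoinRoot (X : F[X])) (i : Fin 3) :
    AdjoinRoot.mk (X : F[X]) (C (lfX z i)) = z i :=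
  Function.surjInv_eq const_surj (z i)

theorem pv_mem {P : F[X]} (hP : Irreducible P) (z : Fin 3 → F[X]) (i : Fin 3) :
    pv z i ∈ AVS.IP P := by
  show ¬ P ∣ (algebraMap F[X] (RatFunc F) (z i)).denom
  rw [RatFunc.denom_algebraMap]
  exact fun h => hP.not_isUnit (isUnit_of_dvd_one h)

theorem const_mem (a : F) : algebraMap F[X] (RatFunc F) (C a) ∈ AVS.Iinf F := by
  show (algebraMap F[X] (RatFunc F) (C a)).intDegree ≤ 0
  rw [RatFunc.intDegree_polynomial, natDegree_C]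
  simp

theorem mul_pv (γ : Matrix (Fin 3) (Fin 3) F[X]) (z : Fin 3 → F[X]) :
    γ.map (algebraMap F[X] (RatFunc F)) *ᵥ pv z = pv (γ *ᵥ z) := by
  funext i
  rw [mulVec3]
  show _ = algebraMap F[X] (RatFunc F) ((γ *ᵥ z) i)
  rw [mulVec3]
  simp only [map_add, map_mul, Matrix.map_apply]
  rfl

theorem mk_mulVec (P : F[X]) (γ : Matrix (Fin 3) (Fin 3) F[X]) (z : Fin 3 → F[X]) (i : Fin 3) :
    AdjoinRoot.mk P ((γ *ᵥ z) i) = (γ.map (AdjoinRoot.mk P) *ᵥ fun j => AdjoinRoot.mk P (z j)) i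
    := by
  rw [mulVec3, mulVec3]
  simp only [map_add, map_mul, Matrix.map_apply]

theorem map_det_mk (P : F[X]) (γ : Matrix (Fin 3) (Fin 3) F[X]) :
    (γ.map (AdjoinRoot.mk P)).det = AdjoinRoot.mk P γ.det := by
  rw [RingHom.map_det]
  rfl

theorem map_det_K (γ : Matrix (Fin 3) (Fin 3) F[X]) :
    (γ.map (algebraMap F[X] (RatFunc F))).det = algebraMap F[X] (RatFunc F) γ.det := by
  rw [RingHom.map_det]
  rfl

/-- A unit of the local ring at `P` modulo `P`. -/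
theorem red_unit (hRDP : RDPStmt) (hDVP : DVPStmt) {P : F[X]} (hPm : P.Monic)
    (hP : Irreducible P) {t : RatFunc F} (ht : AVS.UI (AVS.IP P) t) :
    ∃ l : F[X], AdjoinRoot.mk P l ≠ 0 ∧
      (t - algebraMap F[X] (RatFunc F) l) / algebraMap F[X] (RatFunc F) P ∈ AVS.IP P := by
  have hD := hDVP.1 F P hP
  obtain ⟨l, hl⟩ := (hRDP F P hPm hP).2.2.1 (fun _ => t) (fun _ => ht.2.1)
  have hl0 : (t - algebraMap F[X] (RatFunc F) (l 0)) / algebraMap F[X] (RatFunc F) P ∈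
      AVS.IP P := hl 0
  refine ⟨l 0, ?_, hl0⟩
  intro h
  obtain ⟨p, hp⟩ := AdjoinRoot.mk_eq_zero.1 h
  have h1 : t / algebraMap F[X] (RatFunc F) P ∈ AVS.IP P := by
    have h2 : t / algebraMap F[X] (RatFunc F) P =
        (t - algebraMap F[X] (RatFunc F) (l 0)) / algebraMap F[X] (RatFunc F) P +
          algebraMap F[X] (RatFunc F) p := by
      rw [hp, map_mul]
      field_simp [hD.pi_ne]
      ring
    rw [h2]
    have h3 : algebraMap F[X] (RatFunc F) p ∈ AVS.IP P := pv_mem hP (fun _ => p) 0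
    obtain ⟨V, hV⟩ := hD.val
    rw [← hV] at hl0 h3 ⊢
    exact V.add_mem _ _ hl0 h3
  exact (hD.unif t ht.2.1 ht.1).2 h1 ht.2.2

/-- A unit of the local ring at infinity modulo the maximal ideal. -/
theorem red_unitI (hRDI : RDIStmt) (hDVP : DVPStmt) {t : RatFunc F}
    (ht : AVS.UI (AVS.Iinf F) t) :
    ∃ l : F, l ≠ 0 ∧ (t - algebraMap F[X] (RatFunc F) (C l)) / (RatFunc.X)⁻¹ ∈ AVS.Iinf F := by
  have hD := hDVP.2.1 F
  set l : F := t.num.coeff t.denom.natDegree with hl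
  have h1 : rdI (fun _ : Fin 3 => t) =
      rdI (fun _ : Fin 3 => algebraMap F[X] (RatFunc F) (C l)) := by
    funext i
    unfold rdI
    simp only [RatFunc.num_algebraMap, RatFunc.denom_algebraMap, natDegree_one, coeff_C_zero]
    rw [hl]
  have h2 := (((hRDI F).1 (fun _ => t) (fun _ => algebraMap F[X] (RatFunc F) (C l))
    (fun _ => ht.2.1) (fun _ => const_mem l)).1 h1) 0
  refine ⟨l, ?_, h2⟩
  intro h0
  rw [h0, C_0, map_zero, sub_zero] at h2
  exact (hD.unif t ht.2.1 ht.1).2 h2 ht.2.2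

end Lifts

section Relation

variable {F : Type} [Field F]

/-- The relation between the reference tuple `y₀`, a tuple `y` and an automorphism with
scalars. -/
def Rel (α β : ℕ) (S : Finset F[X]) (y₀ y : Yt S) (γ : Matrix (Fin 3) (Fin 3) F[X])
    (l : ∀ P : {P // P ∈ S}, AdjoinRoot P.1) (li : F) : Prop :=
  γ ∈ (G3 (dv α β) : Set (Matrix (Fin 3) (Fin 3) F[X])) ∧
  Eqv (γ.map (algebraMap F[X] (RatFunc F))) (mp y₀.1) (mp y.1) ∧
  (∀ P : {P // P ∈ S}, γ.map (AdjoinRoot.mk P.1) *ᵥ y.2.1 P = l P • y₀.2.1 P) ∧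
  ∀ i, (((Dg (dv α β) * γ.map (algebraMap F[X] (RatFunc F)) * (Dg (dv α β))⁻¹) *ᵥ
      pv (fun j => C (lfX y.2.2 j))) i - algebraMap F[X] (RatFunc F) (C li) *
        pv (fun j => C (lfX y₀.2.2 j)) i) / (RatFunc.X)⁻¹ ∈ AVS.Iinf F

theorem mp_inj {c c' : Fin 10 → F[X]} (h : mp c = mp c') : c = c' := by
  funext i
  exact IsFractionRing.injective F[X] (RatFunc F) (congrFun h i)

/-- The tuple is determined by the automorphism and the scalars. -/
theorem rel_unique (hGIR : GIRStmt) (hDVP : DVPStmt) (hGAF : GAFStmt) (hRDI : RDIStmt)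
    {α β : ℕ} {S : Finset F[X]} {y₀ y y' : Yt S} {γ : Matrix (Fin 3) (Fin 3) F[X]}
    {l : ∀ P : {P // P ∈ S}, AdjoinRoot P.1} {li : F} (h : Rel α β S y₀ y γ l li)
    (h' : Rel α β S y₀ y' γ l li) : y = y' := by
  obtain ⟨hγ, hE, hP, hI⟩ := h
  obtain ⟨-, hE', hP', hI'⟩ := h'
  have e1 : y.1 = y'.1 := by
    apply mp_inj
    have h1 := hE.2.symm.trans hE'.2
    have h2 := hE.1.ne_zero
    funext i
    have h3 : (γ.map (algebraMap F[X] (RatFunc F))).det * mp y.1 i =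
        (γ.map (algebraMap F[X] (RatFunc F))).det * mp y'.1 i := congrFun h1 i
    exact mul_left_cancel₀ h2 h3
  have e2 : y.2.1 = y'.2.1 := by
    funext P
    have h1 := (hP P).trans (hP' P).symm
    have h2 : IsUnit (γ.map (AdjoinRoot.mk P.1)).det := by
      rw [map_det_mk]
      exact hγ.1.map _
    have h3 : (γ.map (AdjoinRoot.mk P.1))⁻¹ *ᵥ (γ.map (AdjoinRoot.mk P.1) *ᵥ y.2.1 P) =
        (γ.map (AdjoinRoot.mk P.1))⁻¹ *ᵥ (γ.map (AdjoinRoot.mk P.1) *ᵥ y'.2.1 P) := by rw [h1]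
    rwa [Matrix.mulVec_mulVec, Matrix.mulVec_mulVec, Matrix.nonsing_inv_mul _ h2,
      Matrix.one_mulVec, Matrix.one_mulVec] at h3
  have e3 : y.2.2 = y'.2.2 := by
    have hD := hDVP.2.1 F
    have hG := (hGAF F γ).2 (dv α β) hγ
    obtain ⟨-, -, hinv, hmul, -⟩ := hGIR (RatFunc F) (AVS.Iinf F) (RatFunc.X)⁻¹ hD
    set δ := Dg (dv α β) * γ.map (algebraMap F[X] (RatFunc F)) * (Dg (dv α β))⁻¹ with hδ
    obtain ⟨hGi, hd0⟩ := hinv δ hG
    set u : Fin 3 → RatFunc F := pv (fun j => C (lfX y.2.2 j)) with hu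
    set u' : Fin 3 → RatFunc F := pv (fun j => C (lfX y'.2.2 j)) with hu'
    have hum : ∀ i, u i ∈ AVS.Iinf F := fun i => const_mem _
    have hum' : ∀ i, u' i ∈ AVS.Iinf F := fun i => const_mem _
    have h1 : ∀ i, (δ *ᵥ (u - u')) i / (RatFunc.X)⁻¹ ∈ AVS.Iinf F := by
      intro i
      have h2 := (AVR.OInf F).sub_mem (hI i) (hI' i)
      have h3 : (δ *ᵥ (u - u')) i / (RatFunc.X)⁻¹ =
          ((δ *ᵥ u) i - algebraMap F[X] (RatFunc F) (C li) *
            pv (fun j => C (lfX y₀.2.2 j)) i) / (RatFunc.X)⁻¹ -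
          ((δ *ᵥ u') i - algebraMap F[X] (RatFunc F) (C li) *
            pv (fun j => C (lfX y₀.2.2 j)) i) / (RatFunc.X)⁻¹ := by
        rw [Matrix.mulVec_sub, Pi.sub_apply]
        ring
      rw [h3]
      exact h2
    have hπ : ((RatFunc.X : RatFunc F)⁻¹) ∈ AVS.Iinf F := by
      show ((RatFunc.X : RatFunc F)⁻¹).intDegree ≤ 0
      rw [RatFunc.intDegree_inv, RatFunc.intDegree_X]
      norm_num
    have h4 : ∀ i, (δ *ᵥ (u - u')) i ∈ AVS.Iinf F := by
      intro i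
      have h5 := (AVR.OInf F).mul_mem (h1 i) hπ
      rwa [div_mul_cancel₀ _ hD.pi_ne] at h5
    have h5 := (hmul δ⁻¹ (δ *ᵥ (u - u')) hGi.1 h4).2 h1
    rw [Matrix.mulVec_mulVec, Matrix.nonsing_inv_mul _ (isUnit_iff_ne_zero.2 hd0),
      Matrix.one_mulVec] at h5
    have h6 := ((hRDI F).1 u u' hum hum').2 (fun i => by
      have h7 := h5 i
      rwa [Pi.sub_apply] at h7)
    funext i
    have h7 := congrFun h6 i
    unfold rdI at h7
    rw [hu, hu'] at h7
    unfold pv at h7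
    simp only [RatFunc.num_algebraMap, RatFunc.denom_algebraMap, natDegree_one, coeff_C_zero]
      at h7
    rwa [lfX_spec, lfX_spec] at h7
  exact Prod.ext e1 (Prod.ext e2 e3)

theorem mem_G3_smul {d : Fin 3 → ℤ} {γ : Matrix (Fin 3) (Fin 3) F[X]} (hγ : γ ∈ G3 d) {u : F}
    (hu : u ≠ 0) : C u • γ ∈ (G3 d : Set (Matrix (Fin 3) (Fin 3) F[X])) := by
  refine ⟨?_, ?_⟩
  · rw [Matrix.det_smul]
    exact ((isUnit_C.2 (isUnit_iff_ne_zero.2 hu)).pow _).mul hγ.1
  · intro i j h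
    rw [Matrix.smul_apply, smul_eq_mul] at h ⊢
    have h1 : γ i j ≠ 0 := fun h0 => h (by rw [h0, mul_zero])
    rw [natDegree_C_mul hu]
    exact hγ.2 i j h1

/-- Scaling. -/
theorem rel_smul {α β : ℕ} {S : Finset F[X]} {y₀ y : Yt S} {γ : Matrix (Fin 3) (Fin 3) F[X]}
    {l : ∀ P : {P // P ∈ S}, AdjoinRoot P.1} {li : F} (h : Rel α β S y₀ y γ l li) {u : F}
    (hu : u ≠ 0) :
    Rel α β S y₀ y (C u • γ) (fun P => AdjoinRoot.mk P.1 (C u) * l P) (u * li) := by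
  obtain ⟨hγ, hE, hP, hI⟩ := h
  have hmap : (C u • γ).map (algebraMap F[X] (RatFunc F)) =
      algebraMap F[X] (RatFunc F) (C u) • γ.map (algebraMap F[X] (RatFunc F)) := by
    ext i j
    simp only [Matrix.map_apply, Matrix.smul_apply, smul_eq_mul, map_mul]
  have hmap' : ∀ P : F[X], (C u • γ).map (AdjoinRoot.mk P) =
      AdjoinRoot.mk P (C u) • γ.map (AdjoinRoot.mk P) := by
    intro P
    ext i j
    simp only [Matrix.map_apply, Matrix.smul_apply, smul_eq_mul, map_mul]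
  have hCu : algebraMap F[X] (RatFunc F) (C u) ≠ 0 := by
    rw [Ne, IsFractionRing.to_map_eq_zero_iff, C_eq_zero]
    exact hu
  refine ⟨mem_G3_smul hγ hu, ?_, ?_, ?_⟩
  · rw [hmap]
    exact hE.smul (isUnit_iff_ne_zero.2 hCu)
  · intro P
    rw [hmap', Matrix.smul_mulVec, hP P, smul_smul]
  · intro i
    have h1 : (((Dg (dv α β) * (C u • γ).map (algebraMap F[X] (RatFunc F)) *
        (Dg (dv α β))⁻¹) *ᵥ pv (fun j => C (lfX y.2.2 j))) i -
          algebraMap F[X] (RatFunc F) (C (u * li)) * pv (fun j => C (lfX y₀.2.2 j)) i) /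
            (RatFunc.X)⁻¹ = algebraMap F[X] (RatFunc F) (C u) *
        ((((Dg (dv α β) * γ.map (algebraMap F[X] (RatFunc F)) *
        (Dg (dv α β))⁻¹) *ᵥ pv (fun j => C (lfX y.2.2 j))) i -
          algebraMap F[X] (RatFunc F) (C li) * pv (fun j => C (lfX y₀.2.2 j)) i) /
            (RatFunc.X)⁻¹) := by
      rw [hmap, Matrix.mul_smul, Matrix.smul_mul, Matrix.smul_mulVec, Pi.smul_apply, smul_eq_mul,
        C_mul, map_mul]
      ring
    rw [h1]
    exact (AVR.OInf F).mul_mem (const_mem u) (hI i)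

end Relation

end Pool.Agent.H28.AV3C
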